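import Pool.Agent.Y652.CQ.Defs

set_option autoImplicit false

/-! Project CQ: the upper bound. -/

namespace Pool.Agent.Y235.CQ

open Finset Pool.Agent.Y652.CQ

theorem exists_max {ι : Type} [DecidableEq ι] {n : ℕ} (F : ι → RealFormula n) (s : Finset ι)
    (hs : s.Nonempty) : (∀ i ∈ s, (F i).Mono) → ∃ φ : RealFormula n, φ.Mono ∧
      (∀ G, 1 ≤ φ.val G ↔ ∃ i ∈ s, 1 ≤ (F i).val G) ∧ φ.size ≤ ∑ i ∈ s, ((F i).size + 1) := by
  induction hs using Finset.Nonempty.cons_induction with
  | singleton a =>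
    intro h
    refine ⟨F a, h a (by simp), fun G => by simp, ?_⟩
    rw [Finset.sum_singleton]
    omega
  | cons a s ha hs ih =>
    intro h
    obtain ⟨φ, h1, h2, h3⟩ := ih fun i hi => h i (Finset.mem_cons_of_mem hi)
    refine ⟨.gate max (F a) φ, ?_, ?_, ?_⟩
    · exact ⟨fun a a' b b' hab hbb => max_le_max hab hbb,
        h a (Finset.mem_cons_self a s), h1⟩
    · intro G
      change 1 ≤ max ((F a).val G) (φ.val G) ↔ _
      rw [le_max_iff, h2 G]
      simp only [Finset.mem_cons]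
      constructor
      · rintro (h4 | ⟨i, hi, h4⟩)
        · exact ⟨a, Or.inl rfl, h4⟩
        · exact ⟨i, Or.inr hi, h4⟩
      · rintro ⟨i, hi | hi, h4⟩
        · left; rw [← hi]; exact h4
        · right; exact ⟨i, hi, h4⟩
    · rw [Finset.sum_cons]
      change (F a).size + φ.size + 1 ≤ _
      omega

theorem exists_min {ι : Type} [DecidableEq ι] {n : ℕ} (F : ι → RealFormula n) (s : Finset ι)
    (hs : s.Nonempty) : (∀ i ∈ s, (F i).Mono) → ∃ φ : RealFormula n, φ.Mono ∧
      (∀ G, 1 ≤ φ.val G ↔ ∀ i ∈ s, 1 ≤ (F i).val G) ∧ φ.size ≤ ∑ i ∈ s, ((F i).size + 1) := by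
  induction hs using Finset.Nonempty.cons_induction with
  | singleton a =>
    intro h
    refine ⟨F a, h a (by simp), fun G => by simp, ?_⟩
    rw [Finset.sum_singleton]
    omega
  | cons a s ha hs ih =>
    intro h
    obtain ⟨φ, h1, h2, h3⟩ := ih fun i hi => h i (Finset.mem_cons_of_mem hi)
    refine ⟨.gate min (F a) φ, ?_, ?_, ?_⟩
    · exact ⟨fun a a' b b' hab hbb => min_le_min hab hbb,
        h a (Finset.mem_cons_self a s), h1⟩
    · intro G
      change 1 ≤ min ((F a).val G) (φ.val G) ↔ _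
      rw [le_min_iff, h2 G]
      simp only [Finset.mem_cons]
      constructor
      · rintro ⟨h4, h5⟩ i (hi | hi)
        · rw [hi]; exact h4
        · exact h5 i hi
      · intro h4
        exact ⟨h4 a (Or.inl rfl), fun i hi => h4 i (Or.inr hi)⟩
    · rw [Finset.sum_cons]
      change (F a).size + φ.size + 1 ≤ _
      omega

theorem inner {n : ℕ} (K : Finset (Fin n)) (hK : 2 ≤ K.card) : ∃ φ : RealFormula n, φ.Mono ∧
    (∀ G : SimpleGraph (Fin n), 1 ≤ φ.val G ↔ G.IsClique (K : Set (Fin n))) ∧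
    φ.size ≤ 2 * (K.card * K.card) := by
  obtain ⟨a, b, ha, hb, hab⟩ := Finset.one_lt_card_iff.mp (show 1 < K.card by omega)
  have hne : K.offDiag.Nonempty := ⟨(a, b), Finset.mem_offDiag.mpr ⟨ha, hb, hab⟩⟩
  obtain ⟨φ, h1, h2, h3⟩ := exists_min (fun p : Fin n × Fin n => RealFormula.var p.1 p.2) K.offDiag
    hne (fun _ _ => trivial)
  refine ⟨φ, h1, ?_, ?_⟩
  · intro G
    rw [h2 G]
    have hv : ∀ p : Fin n × Fin n, 1 ≤ (RealFormula.var p.1 p.2).val G ↔ G.Adj p.1 p.2 := by
      intro p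
      simp only [RealFormula.val]
      split_ifs with h
      · simp [h]
      · simp only [h, iff_false, not_le]
        norm_num
    constructor
    · intro h x hx y hy hxy
      exact (hv (x, y)).mp (h (x, y) (Finset.mem_offDiag.mpr ⟨hx, hy, hxy⟩))
    · intro h p hp
      rw [Finset.mem_offDiag] at hp
      exact (hv p).mpr (h hp.1 hp.2.1 hp.2.2)
  · refine h3.trans ?_
    have : ∀ p ∈ K.offDiag, (RealFormula.var p.1 p.2 : RealFormula n).size + 1 = 2 := by
      intro p _; rfl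
    rw [Finset.sum_congr rfl this, Finset.sum_const, Finset.offDiag_card, smul_eq_mul, mul_comm]
    exact Nat.mul_le_mul_left 2 (Nat.sub_le _ _)

theorem t_UP : ∀ n : ℕ, 2 ≤ n → ∃ φ : RealFormula n, φ.Mono ∧ φ.Decides ∧
    φ.size ≤ n ^ (Nat.sqrt n + 6) := by
  intro n hn
  classical
  set k := Nat.sqrt n with hk
  have hk1 : 1 ≤ k := Nat.sqrt_pos.mpr (by omega)
  have hkn : k + 1 ≤ n := Nat.sqrt_lt_self (by omega)
  have hex : ∀ K : Finset (Fin n), ∃ φ : RealFormula n, φ.Mono ∧
      (K.card = k + 1 → (∀ G : SimpleGraph (Fin n), 1 ≤ φ.val G ↔ G.IsClique (K : Set (Fin n))) ∧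
      φ.size ≤ 2 * ((k + 1) * (k + 1))) := by
    intro K
    by_cases h : K.card = k + 1
    · obtain ⟨φ, h1, h2, h3⟩ := inner K (by omega)
      refine ⟨φ, h1, fun _ => ⟨h2, ?_⟩⟩
      rw [h] at h3
      exact h3
    · exact ⟨.var ⟨0, by omega⟩ ⟨0, by omega⟩, trivial, fun h' => absurd h' h⟩
  choose F hF1 hF2 using hex
  have hne : (Finset.powersetCard (k + 1) (Finset.univ : Finset (Fin n))).Nonempty := by
    rw [Finset.powersetCard_nonempty, Finset.card_univ, Fintype.card_fin]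
    exact hkn
  obtain ⟨φ, h1, h2, h3⟩ := exists_max F _ hne (fun K _ => hF1 K)
  refine ⟨φ, h1, ⟨1, ?_⟩, ?_⟩
  · intro G
    rw [h2 G]
    unfold BigClique
    constructor
    · rintro ⟨K, hK, h4⟩
      rw [Finset.mem_powersetCard] at hK
      refine ⟨K, ((hF2 K hK.2).1 G).mp h4, ?_⟩
      rw [hK.2, ← Nat.sqrt_lt']
      omega
    · rintro ⟨K, hK, h4⟩
      rw [← Nat.sqrt_lt'] at h4
      obtain ⟨K', hK', hc⟩ := Finset.exists_subset_card_eq (show k + 1 ≤ K.card from h4)
      refine ⟨K', Finset.mem_powersetCard.mpr ⟨Finset.subset_univ _, hc⟩, ?_⟩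
      refine ((hF2 K' hc).1 G).mpr ?_
      exact hK.subset (by exact_mod_cast hK')
  · refine h3.trans ?_
    calc ∑ K ∈ Finset.powersetCard (k + 1) (Finset.univ : Finset (Fin n)), ((F K).size + 1)
        ≤ ∑ K ∈ Finset.powersetCard (k + 1) (Finset.univ : Finset (Fin n)), n ^ 5 := by
          refine Finset.sum_le_sum fun K hK => ?_
          rw [Finset.mem_powersetCard] at hK
          have h4 := (hF2 K hK.2).2
          have h5 : (k + 1) * (k + 1) ≤ n * n := Nat.mul_le_mul hkn hkn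
          have h6 : 4 * (n * n) ≤ n ^ 5 := by
            have h7 : 4 ≤ n ^ 2 := by nlinarith
            have h8 : n ≤ n ^ 3 := Nat.le_self_pow (by omega) n
            have h9 : 8 ≤ n ^ 3 := by
              calc 8 = 2 ^ 3 := by norm_num
                _ ≤ n ^ 3 := Nat.pow_le_pow_left hn 3
            calc 4 * (n * n) ≤ n ^ 3 * (n * n) := Nat.mul_le_mul_right _ (by omega)
              _ = n ^ 5 := by ring
          have h10 : 4 ≤ n * n := Nat.mul_le_mul hn hn
          omega
      _ = n.choose (k + 1) * n ^ 5 := by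
          rw [Finset.sum_const, Finset.card_powersetCard, Finset.card_univ, Fintype.card_fin,
            smul_eq_mul]
      _ ≤ n ^ (k + 1) * n ^ 5 := Nat.mul_le_mul_right _ (Nat.choose_le_pow _ _)
      _ = n ^ (k + 6) := by rw [← pow_add]

end Pool.Agent.Y235.CQ
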